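import Pool.Agent.Helper37.L.TRb

/-!
# Project L, block TR: the geometric situation
-/

universe u

set_option autoImplicit false
set_option linter.unusedSectionVars false

namespace Pool.Agent.L.TR

open VC IntermediateField NumberField Pool.Agent.SC Pool.Agent.Helper91.Sect

noncomputable section

section fixed

variable {k K0 K1 : Type} [Field k] [CharZero k] [Field K0] [Field K1] [Algebra k K0]
  [Algebra k K1] [Algebra K0 K1] [IsScalarTower k K0 K1]

/-- `L0` is a function field. -/
theorem ff_L0 {k K0 E U : Type} [Field k] [Field K0] [Field E] [Field U] [Algebra k K0]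
    [Algebra k E] [Algebra E U] [Algebra K0 U] [Algebra k U] [IsScalarTower k E U]
    [IsScalarTower k K0 U] [Algebra.IsAlgebraic k E] (hK : IsFunctionField k K0) :
    IsFunctionField E (L0 E K0 (U := U)) := by
  let i1 : Algebra K0 (L0 E K0 (U := U)) := ((algebraMap K0 U).codRestrict
    (L0 E K0 (U := U)).toSubring (fun x => IntermediateField.subset_adjoin _ _ ⟨x, rfl⟩)).toAlgebra
  have s1 : IsScalarTower k K0 (L0 E K0 (U := U)) := IsScalarTower.of_algebraMap_eq fun x => by
    apply Subtype.ext
    change algebraMap k U x = algebraMap K0 U (algebraMap k K0 x)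
    rw [← IsScalarTower.algebraMap_apply]
  have s2 : IsScalarTower k E (L0 E K0 (U := U)) := IsScalarTower.of_algebraMap_eq fun x => by
    apply Subtype.ext
    change algebraMap k U x = algebraMap E U (algebraMap k E x)
    rw [← IsScalarTower.algebraMap_apply]
  refine isFunctionField_of_adjoin_eq_top hK ?_
  apply IntermediateField.map_injective (L0 E K0 (U := U)).val
  rw [IntermediateField.adjoin_map, ← AlgHom.fieldRange_eq_map, IntermediateField.fieldRange_val,
    ← Set.range_comp]
  rfl

variable (h : K0) (r : K1) (hr : r ^ 2 = algebraMap K0 K1 h)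
  (hK1 : IntermediateField.adjoin K0 {r} = ⊤)

/-- the element `r` of `UU` -/
def rU (k : Type) {K1 : Type} [Field k] [CharZero k] [Field K1] [Algebra k K1] (r : K1) :
    UU k K1 := ⟨algebraMap K1 (AlgebraicClosure K1) r, mem_UU.2 ((Kur k K1).algebraMap_mem _)⟩

/-- `MM` is the compositum `KK` -/
theorem MM_eq (hK : IsFunctionField k K1) (hK1 : IntermediateField.adjoin K0 {r} = ⊤) :
    letI : Algebra K0 (UU k K1) := (jU k K0 K1).toAlgebra
    MM (kbar k K1) K0 (rU k r) = IntermediateField.restrict (isotrivial_self hK).le_Kur0 := by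
  letI : Algebra K0 (UU k K1) := (jU k K0 K1).toAlgebra
  apply le_antisymm
  · rw [MM, IntermediateField.adjoin_le_iff]
    rintro z (⟨x, rfl⟩ | hz)
    · exact (IntermediateField.mem_restrict _ _).2 (algebraMap_mem_KK _)
    · rw [Set.mem_singleton_iff] at hz
      rw [hz]
      exact (IntermediateField.mem_restrict _ _).2 (algebraMap_mem_KK _)
  · intro z hz
    have h1 : (z : AlgebraicClosure K1) ∈ KK k K1 := (IntermediateField.mem_restrict _ _).1 hz
    have h2 : KK k K1 ≤ (MM (kbar k K1) K0 (rU k r)).map (UU k K1).val := by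
      rw [KK, IntermediateField.adjoin_le_iff]
      rintro _ ⟨x, rfl⟩
      let S : IntermediateField K0 K1 :=
        { ((((MM (kbar k K1) K0 (rU k r)).map (UU k K1).val)).toSubfield).comap
            (algebraMap K1 (AlgebraicClosure K1)) with
          algebraMap_mem' := fun x => by
            refine ⟨jU k K0 K1 x, ?_, rfl⟩
            exact IntermediateField.subset_adjoin _ _ (Or.inl ⟨x, rfl⟩) }
      have h1 : (⊤ : IntermediateField K0 K1) ≤ S := by
        rw [← hK1, IntermediateField.adjoin_simple_le_iff]
        refine ⟨rU k r, ?_, rfl⟩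
        exact IntermediateField.subset_adjoin _ _ (Or.inr rfl)
      exact h1 (IntermediateField.mem_top (x := x))
    obtain ⟨w, hw, hwz⟩ := h2 h1
    have h3 : w = z := Subtype.ext hwz
    rwa [← h3]

/-- algebraic constants -/
theorem mem_cst_iff (θ : AlgebraicClosure K1 ≃+* AlgebraicClosure K0)
    (hθ : ∀ x : K0, θ (algebraMap K1 (AlgebraicClosure K1) (algebraMap K0 K1 x)) =
      algebraMap K0 (AlgebraicClosure K0) x) (z : AlgebraicClosure K1) :
    θ z ∈ cst k K0 ↔ z ∈ kbar k K1 := by
  have hk : ∀ c : k, θ (algebraMap k (AlgebraicClosure K1) c) =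
      algebraMap k (AlgebraicClosure K0) c := by
    intro c
    rw [IsScalarTower.algebraMap_apply k K1 (AlgebraicClosure K1),
      IsScalarTower.algebraMap_apply k K0 K1, hθ, ← IsScalarTower.algebraMap_apply]
  let θ' : AlgebraicClosure K1 ≃ₐ[k] AlgebraicClosure K0 := AlgEquiv.ofRingEquiv (f := θ) hk
  rw [mem_algebraicClosure_iff]
  change IsAlgebraic k (θ' z) ↔ _
  constructor
  · intro h1
    have h2 := h1.algHom (θ'.symm : AlgebraicClosure K0 →ₐ[k] AlgebraicClosure K1)
    have h3 : (θ'.symm : AlgebraicClosure K0 →ₐ[k] AlgebraicClosure K1) (θ' z) = z :=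
      θ'.symm_apply_apply z
    rwa [h3] at h2
  · intro h1
    exact h1.algHom (θ' : AlgebraicClosure K1 →ₐ[k] AlgebraicClosure K0)

/-- The geometric situation over `kbar`. -/
theorem geo (hg : GoodCurve k h) (hr : r ^ 2 = algebraMap K0 K1 h)
    (hK1 : IntermediateField.adjoin K0 {r} = ⊤) [FiniteDimensional K0 K1] :
    letI : Algebra K0 (UU k K1) := (jU k K0 K1).toAlgebra
    Geo k K0 (kbar k K1) (UU k K1) h (rU k r) := by
  letI i0 : Algebra K0 (UU k K1) := (jU k K0 K1).toAlgebra
  have s0 : IsScalarTower k K0 (UU k K1) := IsScalarTower.of_algebraMap_eq fun x => by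
    apply Subtype.ext
    change algebraMap k (AlgebraicClosure K1) x =
      algebraMap K1 (AlgebraicClosure K1) (algebraMap K0 K1 (algebraMap k K0 x))
    rw [← IsScalarTower.algebraMap_apply k K0 K1,
      ← IsScalarTower.algebraMap_apply k K1 (AlgebraicClosure K1)]
  have hK : IsFunctionField k K1 := isFunctionField_of_finite (M := K0) hg.ff
  have halg : Algebra.IsAlgebraic k (kbar k K1) := algebraicClosure.isAlgebraic k _
  have hacl : IsAlgClosed (kbar k K1) :=
    (algebraicClosure.isAlgClosure k (AlgebraicClosure K1)).isAlgClosed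
  -- the comparison with the algebraic closure of `K0`
  have halg0 : Algebra.IsAlgebraic K0 (AlgebraicClosure K1) :=
    Algebra.IsAlgebraic.trans K0 K1 (AlgebraicClosure K1)
  have hac : IsAlgClosure K0 (AlgebraicClosure K1) := ⟨inferInstance, halg0⟩
  let θ : AlgebraicClosure K1 ≃ₐ[K0] AlgebraicClosure K0 :=
    IsAlgClosure.equiv K0 (AlgebraicClosure K1) (AlgebraicClosure K0)
  have hθ : ∀ x : K0, θ (algebraMap K1 (AlgebraicClosure K1) (algebraMap K0 K1 x)) =
      algebraMap K0 (AlgebraicClosure K0) x := by
    intro x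
    rw [← IsScalarTower.algebraMap_apply K0 K1 (AlgebraicClosure K1)]
    exact θ.commutes x
  have hcst : ∀ z : AlgebraicClosure K1, θ z ∈ cst k K0 ↔ z ∈ kbar k K1 :=
    mem_cst_iff (θ : AlgebraicClosure K1 ≃+* AlgebraicClosure K0) hθ
  have hrθ : (θ (algebraMap K1 (AlgebraicClosure K1) r)) ^ 2 =
      algebraMap K0 (AlgebraicClosure K0) h := by
    rw [← map_pow, ← map_pow, hr, hθ]
  let fU : UU k K1 →+* AlgebraicClosure K0 :=
    (θ : AlgebraicClosure K1 →+* AlgebraicClosure K0).comp (algebraMap (UU k K1) _)
  have hfU : ∀ z : UU k K1, fU z = θ z := fun _ => rfl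
  refine ⟨halg, hacl, ff_L0 hg.ff, ?_, ?_, ?_, ?_, normal_UU hr hK1⟩
  · apply Subtype.ext
    change (algebraMap K1 (AlgebraicClosure K1) r) ^ 2 =
      algebraMap K1 (AlgebraicClosure K1) (algebraMap K0 K1 h)
    rw [← map_pow, hr]
  · intro hmem
    refine hg.irr _ hrθ ?_
    have h1 : (L0 (kbar k K1) K0 (U := UU k K1)).toSubfield ≤
        (Subfield.closure (cst k K0 ∪ Set.range (algebraMap K0 (AlgebraicClosure K0)))).comap fU := by
      rw [L0, IntermediateField.adjoin_toSubfield, Subfield.closure_le]
      rintro z (⟨c, rfl⟩ | ⟨x, rfl⟩)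
      · refine Subfield.subset_closure (Or.inl ?_)
        exact (hcst _).2 c.2
      · refine Subfield.subset_closure (Or.inr ⟨x, ?_⟩)
        exact (hθ x).symm
    exact h1 hmem
  · rw [MM_eq r hK hK1]
    exact isCover_Kur0 (isotrivial_self hK)
  · intro y hy
    refine hg.nonrat _ hrθ (fU (y : UU k K1)) ?_
    have hM : ∀ z : UU k K1, z ∈ MM (kbar k K1) K0 (rU k r) →
        fU z ∈ Subfield.closure (cst k K0 ∪ {fU (y : UU k K1)}) := by
      intro z hz
      have h1 : (⟨z, hz⟩ : MM (kbar k K1) K0 (rU k r)) ∈
          IntermediateField.adjoin (kbar k K1) {y} := by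
        rw [hy]
        exact IntermediateField.mem_top
      have h2 : (IntermediateField.adjoin (kbar k K1) {y}).toSubfield ≤
          (Subfield.closure (cst k K0 ∪ {fU (y : UU k K1)})).comap
            (fU.comp (algebraMap (MM (kbar k K1) K0 (rU k r)) (UU k K1))) := by
        rw [IntermediateField.adjoin_toSubfield, Subfield.closure_le]
        rintro z (⟨c, rfl⟩ | hz)
        · refine Subfield.subset_closure (Or.inl ?_)
          exact (hcst _).2 c.2
        · rw [Set.mem_singleton_iff] at hz
          rw [hz]
          exact Subfield.subset_closure (Or.inr rfl)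
      exact h2 h1
    apply le_antisymm
    · rw [Subfield.closure_le]
      rintro z ((hz | ⟨x, rfl⟩) | hz)
      · exact Subfield.subset_closure (Or.inl hz)
      · have h1 := hM (algebraMap K0 (UU k K1) x)
          (IntermediateField.subset_adjoin _ _ (Or.inl ⟨x, rfl⟩))
        have h2 : fU (algebraMap K0 (UU k K1) x) = algebraMap K0 (AlgebraicClosure K0) x := hθ x
        rwa [h2] at h1
      · rw [Set.mem_singleton_iff] at hz
        rw [hz]
        exact hM (rU k r) (IntermediateField.subset_adjoin _ _ (Or.inr rfl))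
    · rw [Subfield.closure_le]
      rintro z (hz | hz)
      · exact Subfield.subset_closure (Or.inl (Or.inl hz))
      · rw [Set.mem_singleton_iff] at hz
        rw [hz]
        have h1 : (MM (kbar k K1) K0 (rU k r)).toSubfield ≤
            (Subfield.closure (cst k K0 ∪ Set.range (algebraMap K0 (AlgebraicClosure K0)) ∪
              {θ (algebraMap K1 (AlgebraicClosure K1) r)})).comap fU := by
          rw [MM, IntermediateField.adjoin_toSubfield, Subfield.closure_le]
          rintro z (⟨c, rfl⟩ | ⟨x, rfl⟩ | hz)
          · refine Subfield.subset_closure (Or.inl (Or.inl ?_))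
            exact (hcst _).2 c.2
          · refine Subfield.subset_closure (Or.inl (Or.inr ⟨x, ?_⟩))
            exact (hθ x).symm
          · rw [Set.mem_singleton_iff] at hz
            rw [hz]
            exact Subfield.subset_closure (Or.inr rfl)
        exact h1 y.2

end fixed

end

end Pool.Agent.L.TR
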