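import Pool.Agent.Helper37.L.TRc

/-!
# Project L, block TR: the transfer of sections
-/

universe u

set_option autoImplicit false
set_option linter.unusedSectionVars false

namespace Pool.Agent.L.TR

open VC IntermediateField NumberField Pool.Agent.SC Pool.Agent.Helper91.Sect

noncomputable section

section transfer

variable {k K0 K1 : Type} [Field k] [CharZero k] [Field K0] [Field K1] [Algebra k K0]
  [Algebra k K1] [Algebra K0 K1] [IsScalarTower k K0 K1]
  {Kc : Type} [Field Kc] [Algebra k Kc] [Algebra K0 Kc] [IsScalarTower k K0 Kc]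

/-- transfer of a section of the twist -/
theorem exists_act {h : K0} {r : K1} (hr : r ^ 2 = algebraMap K0 K1 h)
    (hK1 : IntermediateField.adjoin K0 {r} = ⊤) [FiniteDimensional K0 K1]
    [FiniteDimensional K0 Kc] {c : k} (hc : c ≠ 0) {y : Kc}
    (hy : y ^ 2 = algebraMap k Kc c * algebraMap K0 Kc h)
    (hKc : IntermediateField.adjoin K0 {y} = ⊤) (s : GaloisSection k Kc) :
    letI : Algebra K0 (UU k K1) := (jU k K0 K1).toAlgebra
    ∃ Φ : ((kbar k K1) ≃ₐ[k] (kbar k K1)) →* (UU k K1 ≃+* UU k K1),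
      Act (K0 := K0) (rU k r) c Φ := by
  letI i0 : Algebra K0 (UU k K1) := (jU k K0 K1).toAlgebra
  have halg0 : Algebra.IsAlgebraic K0 (AlgebraicClosure K1) :=
    Algebra.IsAlgebraic.trans K0 K1 (AlgebraicClosure K1)
  have hac0 : IsAlgClosure K0 (AlgebraicClosure K1) := ⟨inferInstance, halg0⟩
  have halgc : Algebra.IsAlgebraic K0 (AlgebraicClosure Kc) :=
    Algebra.IsAlgebraic.trans K0 Kc (AlgebraicClosure Kc)
  have hacc : IsAlgClosure K0 (AlgebraicClosure Kc) := ⟨inferInstance, halgc⟩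
  let ψ : AlgebraicClosure Kc ≃ₐ[K0] AlgebraicClosure K1 :=
    IsAlgClosure.equiv K0 (AlgebraicClosure Kc) (AlgebraicClosure K1)
  have hψ : ∀ x : K0, ψ (algebraMap Kc (AlgebraicClosure Kc) (algebraMap K0 Kc x)) =
      algebraMap K1 (AlgebraicClosure K1) (algebraMap K0 K1 x) := by
    intro x
    rw [← IsScalarTower.algebraMap_apply K0 Kc (AlgebraicClosure Kc),
      ← IsScalarTower.algebraMap_apply K0 K1 (AlgebraicClosure K1)]
    exact ψ.commutes x
  have hψ' : ∀ x : K0, ψ.symm (algebraMap K1 (AlgebraicClosure K1) (algebraMap K0 K1 x)) =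
      algebraMap Kc (AlgebraicClosure Kc) (algebraMap K0 Kc x) := by
    intro x
    rw [← hψ, AlgEquiv.symm_apply_apply]
  have hk : ∀ c : k, ψ (algebraMap k (AlgebraicClosure Kc) c) =
      algebraMap k (AlgebraicClosure K1) c := by
    intro c
    rw [IsScalarTower.algebraMap_apply k Kc (AlgebraicClosure Kc),
      IsScalarTower.algebraMap_apply k K0 Kc, hψ, ← IsScalarTower.algebraMap_apply k K0 K1,
      ← IsScalarTower.algebraMap_apply]
  have hk' : ∀ c : k, ψ.symm (algebraMap k (AlgebraicClosure K1) c) =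
      algebraMap k (AlgebraicClosure Kc) c := by
    intro c
    rw [← hk, AlgEquiv.symm_apply_apply]
  let ψk : AlgebraicClosure Kc ≃ₐ[k] AlgebraicClosure K1 :=
    AlgEquiv.ofRingEquiv (f := (ψ : AlgebraicClosure Kc ≃+* AlgebraicClosure K1)) hk
  have hbar : ∀ z : AlgebraicClosure Kc, z ∈ kbar k Kc → ψ z ∈ kbar k K1 := by
    intro z hz
    rw [mem_algebraicClosure_iff] at hz ⊢
    exact hz.algHom (ψk : AlgebraicClosure Kc →ₐ[k] AlgebraicClosure K1)
  have hbar' : ∀ z : AlgebraicClosure K1, z ∈ kbar k K1 → ψ.symm z ∈ kbar k Kc := by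
    intro z hz
    rw [mem_algebraicClosure_iff] at hz ⊢
    exact hz.algHom (ψk.symm : AlgebraicClosure K1 →ₐ[k] AlgebraicClosure Kc)
  -- a square root of `c`
  have hsq : ∀ d : AlgebraicClosure K1, d ^ 2 = algebraMap k (AlgebraicClosure K1) c →
      d * algebraMap K1 (AlgebraicClosure K1) r = ψ (algebraMap Kc (AlgebraicClosure Kc) y) ∨
      d * algebraMap K1 (AlgebraicClosure K1) r =
        -ψ (algebraMap Kc (AlgebraicClosure Kc) y) := by
    intro d hd
    rw [← sq_eq_sq_iff_eq_or_eq_neg, mul_pow, hd, ← map_pow, hr, ← map_pow, ← map_pow, hy, map_mul,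
      map_mul, hψ, ← IsScalarTower.algebraMap_apply k Kc (AlgebraicClosure Kc), hk]
  obtain ⟨d, hd⟩ := IsAlgClosed.exists_pow_nat_eq (algebraMap k (AlgebraicClosure K1) c)
    (n := 2) (by norm_num)
  have hd0 : d ≠ 0 := by
    intro h0
    rw [h0, zero_pow (by norm_num)] at hd
    exact hc ((map_eq_zero (algebraMap k (AlgebraicClosure K1))).1 hd.symm)
  have hdk : d ∈ kbar k K1 := by
    rw [mem_algebraicClosure_iff]
    refine IsAlgebraic.of_pow (n := 2) (by norm_num) ?_
    rw [hd]
    exact isAlgebraic_algebraMap c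
  have hdM : d ∈ KK k K1 := (KK k K1).algebraMap_mem (⟨d, hdk⟩ : kbar k K1)
  have hrM : algebraMap K1 (AlgebraicClosure K1) r ∈ KK k K1 := algebraMap_mem_KK _
  have hψy : ψ (algebraMap Kc (AlgebraicClosure Kc) y) ∈ KK k K1 := by
    rcases hsq d hd with h1 | h1
    · rw [← h1]; exact mul_mem hdM hrM
    · rw [← neg_neg (ψ (algebraMap Kc (AlgebraicClosure Kc) y)), ← h1]
      exact neg_mem (mul_mem hdM hrM)
  have hψr : ψ.symm (algebraMap K1 (AlgebraicClosure K1) r) ∈ KK k Kc := by
    have h2 : ψ.symm d ∈ KK k Kc :=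
      (KK k Kc).algebraMap_mem (⟨ψ.symm d, hbar' d hdk⟩ : kbar k Kc)
    have h3 : algebraMap Kc (AlgebraicClosure Kc) y ∈ KK k Kc := algebraMap_mem_KK _
    have h4 : ψ.symm (algebraMap K1 (AlgebraicClosure K1) r) =
        (ψ.symm d)⁻¹ * (ψ.symm (d * algebraMap K1 (AlgebraicClosure K1) r)) := by
      rw [map_mul, ← mul_assoc, inv_mul_cancel₀ ((map_ne_zero_iff ψ.symm ψ.symm.injective).2 hd0),
        one_mul]
    rw [h4]
    refine mul_mem (inv_mem h2) ?_
    rcases hsq d hd with h1 | h1
    · rw [h1, AlgEquiv.symm_apply_apply]; exact h3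
    · rw [h1, map_neg, AlgEquiv.symm_apply_apply]; exact neg_mem h3
  have hKc' : ∀ x : Kc, ψ (algebraMap Kc (AlgebraicClosure Kc) x) ∈ KK k K1 :=
    map_mem_KK hKc (ψ : AlgebraicClosure Kc →+* AlgebraicClosure K1) hψ hψy
  have hK1' : ∀ x : K1, ψ.symm (algebraMap K1 (AlgebraicClosure K1) x) ∈ KK k Kc :=
    map_mem_KK hK1 (ψ.symm : AlgebraicClosure K1 →+* AlgebraicClosure Kc) hψ' hψr
  have hur : ∀ z : AlgebraicClosure Kc, z ∈ Kur k Kc → ψ z ∈ Kur k K1 := fun z hz =>
    kur_of_iso (ψ.symm : AlgebraicClosure K1 ≃+* AlgebraicClosure Kc) hk' hKc' hz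
  have hur' : ∀ z : AlgebraicClosure K1, z ∈ Kur k K1 → ψ.symm z ∈ Kur k Kc := fun z hz =>
    kur_of_iso (ψ : AlgebraicClosure Kc ≃+* AlgebraicClosure K1) hk hK1' hz
  let ρ : Kur k Kc ≃+* UU k K1 :=
    { toFun := fun z => ⟨ψ z, mem_UU.2 (hur z z.2)⟩
      invFun := fun z => ⟨ψ.symm z, hur' z (mem_UU.1 z.2)⟩
      left_inv := fun z => Subtype.ext (ψ.symm_apply_apply z)
      right_inv := fun z => Subtype.ext (ψ.apply_symm_apply z)
      map_mul' := fun a b => Subtype.ext (map_mul ψ (a : AlgebraicClosure Kc) b)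
      map_add' := fun a b => Subtype.ext (map_add ψ (a : AlgebraicClosure Kc) b) }
  let e : kbar k Kc ≃ₐ[k] kbar k K1 :=
    { toFun := fun z => ⟨ψ z, hbar z z.2⟩
      invFun := fun z => ⟨ψ.symm z, hbar' z z.2⟩
      left_inv := fun z => Subtype.ext (ψ.symm_apply_apply z)
      right_inv := fun z => Subtype.ext (ψ.apply_symm_apply z)
      map_mul' := fun a b => Subtype.ext (map_mul ψ (a : AlgebraicClosure Kc) b)
      map_add' := fun a b => Subtype.ext (map_add ψ (a : AlgebraicClosure Kc) b)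
      commutes' := fun c => Subtype.ext (hk c) }
  refine ⟨Phi s ρ e, act_Phi s ρ e (fun z => rfl) (fun x => Subtype.ext (hψ x)) y c _ ?_⟩
  intro d' hd'
  have h1 : (d' : AlgebraicClosure K1) ^ 2 = algebraMap k (AlgebraicClosure K1) c :=
    congrArg Subtype.val hd'
  rcases hsq d' h1 with h2 | h2
  · left
    exact Subtype.ext h2
  · right
    exact Subtype.ext h2

end transfer

end

end Pool.Agent.L.TR

namespace Pool.Agent.L

open VC IntermediateField NumberField Pool.Agent.SC Pool.Agent.Helper91.Sect TR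

/-- BLOCK TR. -/
theorem stmtTR : StmtTR := by
  intro k K0 _ _ _ _ h hg
  obtain ⟨r₀, hr₀⟩ := IsAlgClosed.exists_pow_nat_eq (algebraMap K0 (AlgebraicClosure K0) h)
    (n := 2) (by norm_num)
  let K1 : IntermediateField K0 (AlgebraicClosure K0) := IntermediateField.adjoin K0 {r₀}
  have hfd : FiniteDimensional K0 K1 := by
    refine IntermediateField.adjoin.finiteDimensional ?_
    exact (Algebra.IsAlgebraic.isAlgebraic r₀).isIntegral
  let r : K1 := ⟨r₀, IntermediateField.mem_adjoin_simple_self K0 r₀⟩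
  have hr : r ^ 2 = algebraMap K0 K1 h := Subtype.ext hr₀
  have hK1 : IntermediateField.adjoin K0 {r} = ⊤ := by
    apply IntermediateField.map_injective K1.val
    rw [IntermediateField.adjoin_map, Set.image_singleton, ← AlgHom.fieldRange_eq_map,
      IntermediateField.fieldRange_val]
    rfl
  letI i0 : Algebra K0 (UU k K1) := (jU k K0 K1).toAlgebra
  refine ⟨kbar k K1, UU k K1, inferInstance, inferInstance, inferInstance, inferInstance, i0,
    inferInstance, inferInstance, ?_, rU k r, geo h r hg hr hK1, ?_⟩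
  · refine IsScalarTower.of_algebraMap_eq fun x => ?_
    apply Subtype.ext
    change algebraMap k (AlgebraicClosure K1) x =
      algebraMap K1 (AlgebraicClosure K1) (algebraMap K0 K1 (algebraMap k K0 x))
    rw [← IsScalarTower.algebraMap_apply k K0 K1,
      ← IsScalarTower.algebraMap_apply k K1 (AlgebraicClosure K1)]
  · rintro c hc ⟨K, _, _, _, _, y, hy, ⟨s⟩⟩
    let Kc : IntermediateField K0 K := IntermediateField.adjoin K0 {y}
    let y' : Kc := ⟨y, IntermediateField.mem_adjoin_simple_self K0 y⟩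
    have hstc : IsScalarTower k Kc K := IsScalarTower.of_algebraMap_eq fun x => rfl
    obtain ⟨s'⟩ := Pool.Agent.TW.push (k := k) (K₁ := Kc) s
    have hy' : y' ^ 2 = algebraMap k Kc c * algebraMap K0 Kc h := Subtype.ext hy
    have hKc : IntermediateField.adjoin K0 {y'} = ⊤ := by
      apply IntermediateField.map_injective Kc.val
      rw [IntermediateField.adjoin_map, Set.image_singleton, ← AlgHom.fieldRange_eq_map,
        IntermediateField.fieldRange_val]
      rfl
    have hfc : FiniteDimensional K0 Kc := by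
      refine IntermediateField.adjoin.finiteDimensional ?_
      refine IsIntegral.of_pow (n := 2) (by norm_num) ?_
      rw [hy, IsScalarTower.algebraMap_apply k K0 K, ← map_mul]
      exact isIntegral_algebraMap
    exact exists_act hr hK1 hc hy' hKc s'

end Pool.Agent.L
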