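import Pool.Agent.Helper45.L.Defs
import Pool.Agent.Helper13.TW.Push
import Pool.Agent.SC.CoverKur0

/-!
# Project L, block TR: transfer of sections to the fixed maximal unramified extension
-/

universe u

set_option autoImplicit false
set_option linter.unusedSectionVars false

namespace Pool.Agent.L.TR

open VC IntermediateField NumberField Pool.Agent.SC Pool.Agent.Helper91.Sect

noncomputable section

section iso

variable {k K K' : Type u} [Field k] [Field K] [Field K'] [Algebra k K] [Algebra k K']

/-- an inertia element fixes the compositum of `kbar` and `K` -/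
theorem inertia_KK {W : ValuationSubring (AlgebraicClosure K)}
    (hW : ∀ c : k, algebraMap k (AlgebraicClosure K) c ∈ W)
    {σ : AlgebraicClosure K ≃ₐ[K] AlgebraicClosure K} (hσ : InInertia W σ)
    {z : AlgebraicClosure K} (hz : z ∈ KK k K) : σ z = z :=
  KK_le_Kur hz W hW σ hσ

/-- Isomorphisms of algebraic closures which respect the maximal abelian field of constants and
`K` up to constants map unramified elements to unramified elements. -/
theorem kur_of_iso (ψ : AlgebraicClosure K ≃+* AlgebraicClosure K')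
    (hk : ∀ c : k, ψ (algebraMap k (AlgebraicClosure K) c) = algebraMap k (AlgebraicClosure K') c)
    (hK : ∀ x : K', ψ.symm (algebraMap K' (AlgebraicClosure K') x) ∈ KK k K)
    {z : AlgebraicClosure K'} (hz : z ∈ Kur k K') : ψ.symm z ∈ Kur k K := by
  intro W hW σ hσ
  let σ' : AlgebraicClosure K' ≃ₐ[K'] AlgebraicClosure K' :=
    AlgEquiv.ofRingEquiv (f := ψ.symm.trans ((σ : AlgebraicClosure K ≃+* AlgebraicClosure K).trans ψ))
      (fun x => by
        change ψ (σ (ψ.symm (algebraMap K' (AlgebraicClosure K') x))) = _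
        rw [inertia_KK hW hσ (hK x), RingEquiv.apply_symm_apply])
  have hσ' : ∀ w, σ' w = ψ (σ (ψ.symm w)) := fun _ => rfl
  let W' : ValuationSubring (AlgebraicClosure K') :=
    W.comap (ψ.symm : AlgebraicClosure K' →+* AlgebraicClosure K)
  have hW' : ∀ w, w ∈ W' ↔ ψ.symm w ∈ W := fun _ => Iff.rfl
  have h1 : σ' z = z := by
    refine hz W' ?_ σ' ⟨?_, ?_⟩
    · intro c
      rw [hW', ← hk, RingEquiv.symm_apply_apply]
      exact hW c
    · intro w
      rw [hW', hW', hσ', RingEquiv.symm_apply_apply]
      exact hσ.1 _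
    · intro w hw
      rw [hW'] at hw
      have h3 := hσ.2 _ hw
      rw [← ValuationSubring.mem_nonunits_iff, ValuationSubring.mem_nonunits_iff_or] at h3 ⊢
      have h2 : ψ.symm (σ' w - w) = σ (ψ.symm w) - ψ.symm w := by
        rw [map_sub, hσ', RingEquiv.symm_apply_apply]
      rcases h3 with h3 | h3
      · left
        rw [← h2] at h3
        exact (map_eq_zero_iff ψ.symm ψ.symm.injective).1 h3
      · right
        rw [hW', map_inv₀, h2]
        exact h3
  rw [hσ'] at h1
  have h2 := congrArg ψ.symm h1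
  rwa [RingEquiv.symm_apply_apply] at h2

end iso

section act

variable {k K0 Kc E U : Type} [Field k] [Field K0] [Field Kc] [Algebra k K0] [Algebra k Kc]
  [Algebra K0 Kc] [Field E] [Field U] [Algebra k E] [Algebra E U] [Algebra K0 U] [Algebra k U]

/-- the action of a section, transported -/
def Phi (s : GaloisSection k Kc) (ρ : Kur k Kc ≃+* U) (e : kbar k Kc ≃ₐ[k] E) :
    (E ≃ₐ[k] E) →* (U ≃+* U) where
  toFun g := ρ.symm.trans ((s.toHom ((e.trans g).trans e.symm) : Kur k Kc ≃+* Kur k Kc).trans ρ)
  map_one' := by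
    apply RingEquiv.ext
    intro z
    have h1 : ((e.trans (1 : E ≃ₐ[k] E)).trans e.symm) = (1 : Gk k Kc) := by
      apply AlgEquiv.ext
      intro z
      exact e.symm_apply_apply z
    rw [h1, map_one]
    exact ρ.apply_symm_apply z
  map_mul' g g' := by
    apply RingEquiv.ext
    intro z
    have h1 : ((e.trans (g * g')).trans e.symm) =
        (((e.trans g).trans e.symm) * ((e.trans g').trans e.symm) : Gk k Kc) := by
      apply AlgEquiv.ext
      intro z
      change e.symm (g (g' (e z))) = e.symm (g (e (e.symm (g' (e z)))))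
      rw [e.apply_symm_apply]
    rw [h1, map_mul]
    change ρ (s.toHom _ (s.toHom _ (ρ.symm z))) = ρ (s.toHom _ (ρ.symm (ρ (s.toHom _ (ρ.symm z)))))
    rw [ρ.symm_apply_apply]

theorem Phi_apply (s : GaloisSection k Kc) (ρ : Kur k Kc ≃+* U) (e : kbar k Kc ≃ₐ[k] E)
    (g : E ≃ₐ[k] E) (z : Kur k Kc) :
    Phi s ρ e g (ρ z) = ρ (s.toHom ((e.trans g).trans e.symm) z) := by
  change ρ (s.toHom _ (ρ.symm (ρ z))) = _
  rw [ρ.symm_apply_apply]

theorem act_Phi (s : GaloisSection k Kc) (ρ : Kur k Kc ≃+* U) (e : kbar k Kc ≃ₐ[k] E)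
    (h1 : ∀ z : kbar k Kc, ρ ⟨z, kbar_mem_Kur z⟩ = algebraMap E U (e z))
    (h2 : ∀ x : K0, ρ (algebraMap Kc (Kur k Kc) (algebraMap K0 Kc x)) = algebraMap K0 U x)
    (y : Kc) (c : k) (r : U)
    (hy : ∀ d : E, d ^ 2 = algebraMap k E c →
      algebraMap E U d * r = ρ (algebraMap Kc (Kur k Kc) y) ∨
        algebraMap E U d * r = -ρ (algebraMap Kc (Kur k Kc) y)) :
    Act (K0 := K0) r c (Phi s ρ e) where
  const g a := by
    have h3 := h1 (e.symm a)
    rw [e.apply_symm_apply] at h3
    rw [← h3, Phi_apply]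
    have h4 := s.isSection ((e.trans g).trans e.symm) (e.symm a) ⟨e.symm a, kbar_mem_Kur _⟩ rfl
    have h5 : s.toHom ((e.trans g).trans e.symm) ⟨e.symm a, kbar_mem_Kur _⟩ =
        ⟨e.symm (g a), kbar_mem_Kur _⟩ := by
      apply Subtype.ext
      rw [h4]
      change ((e.symm (g (e (e.symm a))) : kbar k Kc) : AlgebraicClosure Kc) = _
      rw [e.apply_symm_apply]
    rw [h5, h1, e.apply_symm_apply]
  fixK g x := by
    rw [← h2, Phi_apply, AlgEquiv.commutes]
  tw g d hd := by
    have h3 : Phi s ρ e g (algebraMap E U d * r) = algebraMap E U d * r := by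
      rcases hy d hd with h4 | h4
      · rw [h4, Phi_apply, AlgEquiv.commutes]
      · rw [h4, map_neg, Phi_apply, AlgEquiv.commutes]
    have h5 : Phi s ρ e g (algebraMap E U d) = algebraMap E U (g d) := by
      have h3 := h1 (e.symm d)
      rw [e.apply_symm_apply] at h3
      rw [← h3, Phi_apply]
      have h4 := s.isSection ((e.trans g).trans e.symm) (e.symm d) ⟨e.symm d, kbar_mem_Kur _⟩ rfl
      have h5 : s.toHom ((e.trans g).trans e.symm) ⟨e.symm d, kbar_mem_Kur _⟩ =
          ⟨e.symm (g d), kbar_mem_Kur _⟩ := by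
        apply Subtype.ext
        rw [h4]
        change ((e.symm (g (e (e.symm d))) : kbar k Kc) : AlgebraicClosure Kc) = _
        rw [e.apply_symm_apply]
      rw [h5, h1, e.apply_symm_apply]
    rw [map_mul, h5] at h3
    rw [mul_comm, h3]
  cont z := by
    obtain ⟨L, hL, hLs⟩ := exists_finite_level s (ρ.symm z)
    refine ⟨L.map (e : kbar k Kc →ₐ[k] E), ?_, fun g hg => ?_⟩
    · exact Module.Finite.equiv (L.intermediateFieldMap e).toLinearEquiv
    · have h3 : (e.trans g).trans e.symm ∈ L.fixingSubgroup := by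
        rw [IntermediateField.mem_fixingSubgroup_iff]
        intro x hx
        change e.symm (g (e x)) = x
        rw [hg (e x) ⟨x, hx, rfl⟩, e.symm_apply_apply]
      have h4 := Phi_apply s ρ e g (ρ.symm z)
      rw [hLs _ h3, ρ.apply_symm_apply] at h4
      exact h4

end act

end

end Pool.Agent.L.TR
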