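import Pool.Agent.Helper37.L.TRa

/-!
# Project L, block TR: the fixed field
-/

universe u

set_option autoImplicit false
set_option linter.unusedSectionVars false

namespace Pool.Agent.L.TR

open VC IntermediateField NumberField Pool.Agent.SC Pool.Agent.Helper91.Sect

noncomputable section

section fixed

variable {k K0 K1 : Type} [Field k] [CharZero k] [Field K0] [Field K1] [Algebra k K0]
  [Algebra k K1] [Algebra K0 K1] [IsScalarTower k K0 K1]

/-- the trivial isotrivial situation -/
theorem isotrivial_self (hK : IsFunctionField k K1) :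
    Isotrivial k K1 (KK k K1) (fun x : PEmpty => (x.elim : kbar k K1)) where
  ffK := hK
  ff := isFunctionField_KK hK
  comp := by
    apply le_antisymm
    · rw [IntermediateField.adjoin_le_iff]
    · exact IntermediateField.subset_adjoin _ _
  tr := by
    rw [algebraicIndependent_empty_type_iff]
    exact (algebraMap (KK k K1) (AlgebraicClosure K1)).injective
  alg := by
    refine ⟨fun z => ?_⟩
    exact isAlgebraic_algebraMap (⟨z, IntermediateField.algebraMap_mem _ z⟩ :
      IntermediateField.adjoin (kbar k K1) (Set.range fun x : PEmpty => (x.elim : kbar k K1)))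

/-- the maximal unramified extension as an extension of `kbar` -/
abbrev UU (k K1 : Type) [Field k] [CharZero k] [Field K1] [Algebra k K1] :
    IntermediateField (kbar k K1) (AlgebraicClosure K1) := Kur0 k (KK k K1)

theorem mem_UU {z : AlgebraicClosure K1} : z ∈ UU k K1 ↔ z ∈ Kur k K1 :=
  ⟨fun h => h.1, fun h => ⟨h, Algebra.IsAlgebraic.isAlgebraic z⟩⟩

/-- the embedding of `K0` in `UU` -/
def jU (k K0 K1 : Type) [Field k] [CharZero k] [Field K0] [Field K1] [Algebra k K0]
    [Algebra k K1] [Algebra K0 K1] : K0 →+* UU k K1 :=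
  ((algebraMap K1 (AlgebraicClosure K1)).comp (algebraMap K0 K1)).codRestrict
    (UU k K1).toSubfield.toSubring (fun x => mem_UU.2 ((Kur k K1).algebraMap_mem _))

theorem coe_jU (x : K0) : (jU k K0 K1 x : AlgebraicClosure K1) =
    algebraMap K1 (AlgebraicClosure K1) (algebraMap K0 K1 x) := rfl

section iso2

variable {Kc : Type} [Field Kc] [Algebra k Kc] [Algebra K0 Kc] [IsScalarTower k K0 Kc]

/-- the elements of a quadratic extension generated by `y` are mapped to `KK` -/
theorem map_mem_KK {y : Kc} (hy : IntermediateField.adjoin K0 {y} = ⊤)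
    (ψ : AlgebraicClosure Kc →+* AlgebraicClosure K1)
    (hψ : ∀ x : K0, ψ (algebraMap Kc (AlgebraicClosure Kc) (algebraMap K0 Kc x)) =
      algebraMap K1 (AlgebraicClosure K1) (algebraMap K0 K1 x))
    (hψy : ψ (algebraMap Kc (AlgebraicClosure Kc) y) ∈ KK k K1) (x : Kc) :
    ψ (algebraMap Kc (AlgebraicClosure Kc) x) ∈ KK k K1 := by
  let S : IntermediateField K0 Kc :=
    { ((KK k K1).toSubfield).comap (ψ.comp (algebraMap Kc (AlgebraicClosure Kc))) with
      algebraMap_mem' := fun x => by
        change ψ (algebraMap Kc (AlgebraicClosure Kc) (algebraMap K0 Kc x)) ∈ KK k K1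
        rw [hψ]
        exact algebraMap_mem_KK _ }
  have h1 : (⊤ : IntermediateField K0 Kc) ≤ S := by
    rw [← hy, IntermediateField.adjoin_simple_le_iff]
    exact hψy
  exact h1 (IntermediateField.mem_top (x := x))

end iso2

/-- `UU` is normal over `K0` if `K1 = K0(r)`, `r² ∈ K0`. -/
theorem normal_UU {h : K0} {r : K1} (hr : r ^ 2 = algebraMap K0 K1 h)
    (hK1 : IntermediateField.adjoin K0 {r} = ⊤) [Algebra.IsAlgebraic K0 K1] :
    @Normal K0 (UU k K1) _ _ (jU k K0 K1).toAlgebra := by
  let i0 : Algebra K0 (UU k K1) := (jU k K0 K1).toAlgebra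
  have halg : Algebra.IsAlgebraic K0 (AlgebraicClosure K1) :=
    Algebra.IsAlgebraic.trans K0 K1 (AlgebraicClosure K1)
  have hac : IsAlgClosure K0 (AlgebraicClosure K1) := ⟨inferInstance, halg⟩
  have hnor : Normal K0 (AlgebraicClosure K1) := IsAlgClosure.normal K0 (AlgebraicClosure K1)
  have h1 : Normal K0 ((Kur k K1).restrictScalars K0) := by
    rw [normal_iff_forall_map_le']
    rintro σ _ ⟨z, hz, rfl⟩
    change σ z ∈ Kur k K1
    have hσ0 : ∀ x : K0, σ (algebraMap K1 (AlgebraicClosure K1) (algebraMap K0 K1 x)) =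
        algebraMap K1 (AlgebraicClosure K1) (algebraMap K0 K1 x) := by
      intro x
      rw [← IsScalarTower.algebraMap_apply K0 K1 (AlgebraicClosure K1)]
      exact σ.commutes x
    have hσr : σ (algebraMap K1 (AlgebraicClosure K1) r) ∈ KK k K1 := by
      have h2 : (σ (algebraMap K1 (AlgebraicClosure K1) r)) ^ 2 =
          (algebraMap K1 (AlgebraicClosure K1) r) ^ 2 := by
        rw [← map_pow, ← map_pow, hr, hσ0]
      rcases sq_eq_sq_iff_eq_or_eq_neg.1 h2 with h3 | h3
      · rw [h3]
        exact algebraMap_mem_KK _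
      · rw [h3]
        exact neg_mem (algebraMap_mem_KK _)
    have h3 : ∀ x : K1, σ (algebraMap K1 (AlgebraicClosure K1) x) ∈ KK k K1 :=
      map_mem_KK hK1 (σ : AlgebraicClosure K1 →+* AlgebraicClosure K1) hσ0 hσr
    refine kur_of_iso (σ.symm : AlgebraicClosure K1 ≃+* AlgebraicClosure K1) ?_ h3 hz
    intro c
    have h4 : algebraMap k (AlgebraicClosure K1) c =
        algebraMap K0 (AlgebraicClosure K1) (algebraMap k K0 c) := by
      rw [IsScalarTower.algebraMap_apply K0 K1 (AlgebraicClosure K1),
        ← IsScalarTower.algebraMap_apply k K0 K1,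
        ← IsScalarTower.algebraMap_apply k K1 (AlgebraicClosure K1)]
    rw [h4]
    exact σ.symm.commutes _
  let e : ((Kur k K1).restrictScalars K0) ≃ₐ[K0] (UU k K1) :=
    { toFun := fun z => ⟨z, mem_UU.2 z.2⟩
      invFun := fun z => ⟨z, mem_UU.1 z.2⟩
      left_inv := fun z => rfl
      right_inv := fun z => rfl
      map_mul' := fun _ _ => rfl
      map_add' := fun _ _ => rfl
      commutes' := fun x => Subtype.ext
        (IsScalarTower.algebraMap_apply K0 K1 (AlgebraicClosure K1) x) }
  exact Normal.of_algEquiv e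

end fixed

end

end Pool.Agent.L.TR
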